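import Mathlib
import Pool.Agent.H48.Strip

set_option autoImplicit false

namespace Pool.Agent.Results.MP_960512_al.Counterexample

/-- `H` has a normal subgroup of finite exponent with nilpotent quotient. -/
def EN (H : Type) [Group H] : Prop :=
  ∃ (K : Subgroup H) (_ : K.Normal), (∃ m : ℕ, 0 < m ∧ ∀ x ∈ K, x ^ m = 1) ∧
    Group.IsNilpotent (H ⧸ K)

/-- Every infinite subset has distinct `x, y` with `⟨x, y⁻¹ x y⟩` in the class `EN`. -/
def Star (G : Type) [Group G] : Prop :=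
  ∀ S : Set G, S.Infinite → ∃ x ∈ S, ∃ y ∈ S, x ≠ y ∧ EN (Subgroup.closure {x, y⁻¹ * x * y})

/-- Soluble-by-finite groups. -/
def SolubleByFinite (G : Type) [Group G] : Prop :=
  ∃ N : Subgroup G, N.Normal ∧ N.FiniteIndex ∧ Group.IsSolvable N

open Pool.Agent.H48.Strip
open scoped commutatorElement

/-- Odd moduli. -/
def μ (k : ℕ) : ℕ := 2 * k + 3

theorem pos (x y : GG μ) : EN (Subgroup.closure {x, y⁻¹ * x * y}) := by
  obtain ⟨S, K, h1, h2⟩ := strip' x y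
  set H := Subgroup.closure {x, y⁻¹ * x * y}
  let f : H →* Multiplicative P := τ.comp ((GG μ).subtype.comp H.subtype)
  refine ⟨f.ker, inferInstance, ⟨2 * ∏ k ∈ Finset.range (K + 1), μ k,
    Nat.mul_pos two_pos (Finset.prod_pos fun k _ => by simp [μ]), fun g hg => ?_⟩, quot_nil f⟩
  have ht : g.1.1.t = 0 := hg
  have hr : Rot (g.1.1 ^ 2) := by
    rw [sq]
    exact ⟨by simp [ht], fun q => by simp [ht]⟩
  have hc : Cond S (g.1.1 ^ 2) := h2 (g.1 ^ 2) (pow_mem g.2 2)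
  apply Subtype.ext
  apply Subtype.ext
  change g.1.1 ^ _ = 1
  rw [pow_mul]
  refine rot_one (rot_pow hr _).1 fun q k => ?_
  rw [(rot_pow hr _).2]
  by_cases hk : K < k
  · rw [rot_out h1 hc hr q hk, mul_zero]
  · rw [(ZMod.natCast_eq_zero_iff _ _).mpr
      (Finset.dvd_prod_of_mem _ (Finset.mem_range.mpr (by omega))), zero_mul]

/-- Iterated commutators. -/
def ρ (k : ℕ) : ℕ → GG μ
  | 0 => ⁅(⟨b 0, b_mem 0⟩ : GG μ), (⟨b (0 + d k), b_mem _⟩ : GG μ)⁆
  | j + 1 => ⁅ρ k j, (⟨b 0, b_mem 0⟩ : GG μ)⁆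

theorem ρ_r (k j : ℕ) : Rot (ρ k j).1 ∧ (ρ k j).1.r 0 k = 2 ^ (j + 1) := by
  induction j with
  | zero => exact ⟨rot_comm rfl rfl, by rw [zero_add, pow_one]; exact bb_r 0 k⟩
  | succ j ih =>
    refine ⟨rot_comm ih.1.1 rfl, ?_⟩
    have h1 := d_ne 0 k
    change (⁅(ρ k j).1, (b 0 : Γ μ)⁆ : Γ μ).r 0 k = _
    rw [rot_comm_r ih.1 rfl, ih.2]
    simp only [sg, b, h1, if_true, if_false]
    simp
    ring

theorem neg : ¬ EN (GG μ) := by
  rintro ⟨K, hK, ⟨m, hm, h1⟩, h2⟩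
  obtain ⟨n, hn⟩ := Subgroup.nilpotent_iff_lowerCentralSeries.mp h2
  have h3 : ∀ j, QuotientGroup.mk' K (ρ m j) ∈ (⊤ : Subgroup (GG μ ⧸ K)).lowerCentralSeries j := by
    intro j
    induction j with
    | zero => trivial
    | succ j ih =>
      rw [ρ, map_commutatorElement, Subgroup.lowerCentralSeries_succ]
      exact Subgroup.commutator_mem_commutator ih trivial
  have h4 := h3 n
  rw [hn, Subgroup.mem_bot] at h4
  have h5 : (ρ m n).1 ^ m = 1 := congrArg Subtype.val (h1 _ ((QuotientGroup.eq_one_iff _).mp h4))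
  have h6 := (rot_pow (ρ_r m n).1 m).2 0 m
  rw [h5, (ρ_r m n).2, one_r] at h6
  have h7 : ((m * 2 ^ (n + 1) : ℕ) : ZMod (μ m)) = 0 := by push_cast; exact h6.symm
  rw [ZMod.natCast_eq_zero_iff] at h7
  have h8 : (μ m).Coprime (2 ^ (n + 1)) :=
    Nat.Coprime.pow_right _ (Nat.coprime_two_right.mpr ⟨m + 1, by simp [μ]; ring⟩)
  have := Nat.le_of_dvd hm (h8.dvd_of_dvd_mul_right h7)
  simp only [μ] at this
  omega

theorem result : ∃ (G : Type) (_ : Group G),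
    Group.FG G ∧ SolubleByFinite G ∧ Star G ∧ ¬ EN G := by
  refine ⟨GG μ, inferInstance, inferInstance, ⟨⊤, inferInstance, inferInstance, inferInstance⟩,
    fun S hS => ?_, neg⟩
  obtain ⟨x, hx, y, hy, hxy⟩ := hS.nontrivial
  exact ⟨x, hx, y, hy, hxy, pos x y⟩

end Pool.Agent.Results.MP_960512_al.Counterexample
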